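import Pool.Agent.W392.UB.Len
import Pool.Agent.W392.UB.Cube
import Pool.Agent.W392.UB.CatDef

/-!
# An unbranched free-by-cyclic group acting geometrically on no CAT(0) space

The group is `F_6 ⋊ ℤ`, where the automorphism fixes `a`, `b` and sends `c_0` to `c_1`, `c_1` to
`c_2`, `c_2` to `c_3` and `c_3` to `c_0 [a, b]`. It is quasi-isometric to a two-dimensional CAT(0)
cube complex, so that it is unbranched, and it acts geometrically on no CAT(0) space.
-/

set_option autoImplicit false

universe u

namespace Pool.Agent.Results.MP_8646f6_al.UnbranchedNotCAT0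

open Pool.Agent.W392.UB

/-- The mapping torus `⟨F, t | t x t⁻¹ = Φ x⟩` of an automorphism of a free group of rank `n`. -/
abbrev MappingTorus {n : ℕ} (Φ : MulAut (FreeGroup (Fin n))) : Type :=
  FreeGroup (Fin n) ⋊[zpowersHom (MulAut (FreeGroup (Fin n))) Φ] Multiplicative ℤ

/-- `Γ` is quasi-isometric to a locally finite CAT(0) cube complex of dimension less than `d`:
there are a finite generating set `S` of `Γ`, a connected locally finite median graph `G` on a set
`V` (a graph in which any three vertices have exactly one median; these are the 1-skeleta of the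
CAT(0) cube complexes) without `d`-cubes, and a quasi-isometry `f` from `Γ` with the word metric
of `S` to `V` with the graph metric. -/
def QICubeComplex (Γ : Type) [Group Γ] (d : ℕ) : Prop :=
  ∃ (S : Finset Γ) (V : Type) (G : SimpleGraph V) (f : Γ → V) (K : ℕ),
    Subgroup.closure (S : Set Γ) = ⊤ ∧
    G.Connected ∧
    (∀ v : V, (G.neighborSet v).Finite) ∧
    (∀ x y z : V, ∃! m : V,
      G.dist x m + G.dist m y = G.dist x y ∧
      G.dist y m + G.dist m z = G.dist y z ∧
      G.dist x m + G.dist m z = G.dist x z) ∧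
    (¬ ∃ c : (Fin d → Bool) → V, Function.Injective c ∧
      ∀ p q : Fin d → Bool, (∃! i, p i ≠ q i) → G.Adj (c p) (c q)) ∧
    (∀ g h : Γ, G.dist (f g) (f h) ≤ K * wlen (S : Set Γ) (g⁻¹ * h) + K) ∧
    (∀ g h : Γ, wlen (S : Set Γ) (g⁻¹ * h) ≤ K * G.dist (f g) (f h) + K) ∧
    (∀ v : V, ∃ g : Γ, G.dist (f g) v ≤ K)

/-- Geometric actions: by isometries, properly discontinuous, cocompact. -/
def ActsGeometrically (Γ : Type) [Group Γ] (X : Type u) [MetricSpace X] [MulAction Γ X] : Prop :=
  (∀ (g : Γ) (x y : X), dist (g • x) (g • y) = dist x y) ∧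
  (∀ K : Set X, IsCompact K → {g : Γ | (((fun x => g • x) '' K) ∩ K).Nonempty}.Finite) ∧
  (∃ K : Set X, IsCompact K ∧ ∀ x : X, ∃ g : Γ, g • x ∈ K)

/-- There is an automorphism of a free group of finite rank at least three whose mapping torus is
quasi-isometric to a CAT(0) cube complex of dimension at most two (so it is unbranched), but acts
geometrically on no CAT(0) space. -/
theorem result :
    ∃ (n : ℕ) (Φ : MulAut (FreeGroup (Fin n))), 3 ≤ n ∧
      QICubeComplex (MappingTorus Φ) 3 ∧
      ∀ (X : Type u) [MetricSpace X] [Nonempty X] [MulAction (MappingTorus Φ) X],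
        IsCAT0 X → ¬ ActsGeometrically (MappingTorus Φ) X := by
  refine ⟨6, F6.Phi, by norm_num, ?_, ?_⟩
  · have hfin : ({GG.a, GG.b, GG.t, GG.c} : Set GG).Finite := by
      simp only [Set.finite_insert, Set.finite_singleton]
    obtain ⟨C, hC⟩ := bij_lip (S := ((hfin.toFinset : Finset GG) : Set GG))
      (by rw [Set.Finite.coe_toFinset]; exact GG_closure) (Finset.finite_toSet _)
    refine ⟨hfin.toFinset, Dt.sys.Vx, Dt.sys.Cay, bij, C, ?_, Pool.Agent.W387.SqSys.cay_connected,
      ?_, ?_, ?_, ?_, ?_, ?_⟩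
    · rw [Set.Finite.coe_toFinset]
      exact GG_closure
    · intro v
      apply Set.Finite.subset (Set.finite_range
        (fun s => (⟨Dt.sys.gn s * v.g⟩ : Dt.sys.Vx)))
      rintro w ⟨s, h⟩
      exact ⟨s, Pool.Agent.W387.SqSys.Vx.ext h.symm⟩
    · intro x y z
      simp only [Pool.Agent.W387.SqSys.cay_dist]
      obtain ⟨m, hm, hm2⟩ :=
        (Pool.Agent.W387.SqSys.medD (S := Dt.sys)).existsUnique x.g y.g z.g
      exact ⟨⟨m⟩, hm, fun m' hm' => Pool.Agent.W387.SqSys.Vx.ext (hm2 m'.g hm')⟩
    · rintro ⟨c, hc1, hc2⟩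
      exact no_cube c hc1 hc2
    · exact fun g h => (hC g h).1.trans (Nat.le_add_right _ _)
    · exact fun g h => (hC g h).2.trans (Nat.le_add_right _ _)
    · intro v
      refine ⟨bij.symm v, ?_⟩
      rw [Equiv.apply_symm_apply, SimpleGraph.dist_self]
      exact Nat.zero_le _
  · intro X _ _ _ hX hgeo
    obtain ⟨h1, h2, h3⟩ := hgeo
    have ca : Commute GG.t GG.a := GG.ta
    have cb : Commute GG.t GG.b := GG.tb
    refine no_geometric (G := GG) (X := X) hX.cn h1 h2 h3 GG.a GG.b GG.c (GG.t ^ 4)
      (ca.pow_left 4) (cb.pow_left 4) ?_ GG.w_order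
    rw [← mul_assoc]
    exact GG.crel

end Pool.Agent.Results.MP_8646f6_al.UnbranchedNotCAT0
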